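import Mathlib
import Pool.Agent.helper60.PC.Deg

/-!
# Weak independence of the powers `n ^ α`: an exact criterion by finitely many relations
-/

set_option autoImplicit false

namespace Pool.Agent.Results.MP_ff1ab7_nt.FreeDensity

/-- The `n ≥ 1` such that `n ^ α` is a rational linear combination of the `m ^ α`, `1 ≤ m < n`. -/
def Dependent (α : ℝ) : Set ℕ :=
  {n | 1 ≤ n ∧ (n : ℝ) ^ α ∈
    Submodule.span ℚ {y : ℝ | ∃ m : ℕ, 1 ≤ m ∧ m < n ∧ y = (m : ℝ) ^ α}}

/-- The primes `p` with `p ^ α` in the field generated by the `q ^ α`, `q < p` prime. -/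
def FieldDependent (α : ℝ) : Set ℕ :=
  {p | p.Prime ∧ (p : ℝ) ^ α ∈
    IntermediateField.adjoin ℚ {y : ℝ | ∃ q : ℕ, q.Prime ∧ q < p ∧ y = (q : ℝ) ^ α}}

/-- The degree of `p ^ α` over the field generated by the `q ^ α`, `q < p` prime, is at most `e`:
a nontrivial linear combination of `1, p ^ α, …, (p ^ α) ^ e` with coefficients in this field
vanishes. -/
def DegreeLE (α : ℝ) (p e : ℕ) : Prop :=
  ∃ c : ℕ → ℝ,
    (∀ i, c i ∈ IntermediateField.adjoin ℚ {y : ℝ | ∃ q : ℕ, q.Prime ∧ q < p ∧ y = (q : ℝ) ^ α}) ∧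
    (∃ i ≤ e, c i ≠ 0) ∧ ∑ i ∈ Finset.range (e + 1), c i * ((p : ℝ) ^ α) ^ i = 0

/-- The density of the integers divisible by no member of the finite set `F`: this set is periodic
modulo the product `P` of the members of `F`, and the density is the proportion in `[0, P)`. -/
noncomputable def freeDensity (F : Finset ℕ) : ℝ :=
  (((Finset.range (∏ f ∈ F, f)).filter (fun n => ∀ f ∈ F, ¬ f ∣ n)).card : ℝ) /
    ((∏ f ∈ F, f : ℕ) : ℝ)

/-- The upper density of `T` is at least `c`. -/
def UpperDensityGE (T : Set ℕ) (c : ℝ) : Prop :=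
  ∀ c' < c, ∀ N : ℕ, ∃ M : ℕ, N ≤ M ∧ c' * (M : ℝ) ≤ ((T ∩ Set.Icc 1 M).ncard : ℝ)

/-- The conclusion of Q1 for the exponent `α` (copied from the frozen statement). -/
def WeaklyIndependent (α : ℝ) : Prop :=
  ∃ S : Set ℕ,
    (∃ c : ℝ, 0 < c ∧ ∀ N : ℕ, ∃ M : ℕ, N ≤ M ∧
        c * (M : ℝ) ≤ ((S ∩ Set.Icc 1 M).ncard : ℝ)) ∧
    LinearIndependent ℚ (fun n : S => ((n : ℕ) : ℝ) ^ α)

/-- The `n ^ α`, `n ∈ T`, are linearly independent over `ℚ`. -/
def IndependentOn (α : ℝ) (T : Set ℕ) : Prop :=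
  LinearIndependent ℚ (fun n : T => ((n : ℕ) : ℝ) ^ α)

/-- The integers divisible by no member of `F` have density at least `c`, for every finite subset
`F` of `Dependent α`. -/
def FreeGE (α c : ℝ) : Prop :=
  ∀ F : Finset ℕ, (F : Set ℕ) ⊆ Dependent α → c ≤ freeDensity F

/-- The product of the `1 - p ^ (- e)`, where `e` is the degree of `p ^ α` over the field generated
by the `q ^ α`, `q < p` prime, is at least `c` (written with the finite subproducts, and upper
bounds for the degrees). -/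
def ProductGE (α c : ℝ) : Prop :=
  ∀ (P : Finset ℕ) (e : ℕ → ℕ), (∀ p ∈ P, p.Prime ∧ DegreeLE α p (e p)) →
    c ≤ ∏ p ∈ P, (1 - 1 / (p : ℝ) ^ (e p))

/-- The sum of the `1 / p`, `p ∈ A`, converges. -/
def ConvergentSum (A : Set ℕ) : Prop := Summable (A.indicator (fun p : ℕ => (1 : ℝ) / p))

theorem dependent_eq (α : ℝ) : Dependent α = Pool.Agent.helper60.PC.Dp α := by
  ext n
  unfold Dependent Pool.Agent.helper60.PC.Dp Pool.Agent.helper60.PC.pw
  have : {y : ℝ | ∃ m : ℕ, 1 ≤ m ∧ m < n ∧ y = (m : ℝ) ^ α} =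
      (fun m : ℕ => (m : ℝ) ^ α) '' {m : ℕ | 1 ≤ m ∧ m < n} := by
    ext y
    constructor
    · rintro ⟨m, h1, h2, rfl⟩
      exact ⟨m, ⟨h1, h2⟩, rfl⟩
    · rintro ⟨m, ⟨h1, h2⟩, rfl⟩
      exact ⟨m, h1, h2, rfl⟩
  simp only [Set.mem_ofPred_eq]
  rw [this]

theorem degreeLE_of (α : ℝ) (p e : ℕ) (h : ¬ Pool.Agent.helper60.PC.Fr α p e) :
    DegreeLE α p e := by
  unfold Pool.Agent.helper60.PC.Fr at h
  push Not at h
  obtain ⟨f, h1, h2, h3⟩ := h
  refine ⟨fun i => (f.coeff i : ℝ), fun i => (f.coeff i).2, ⟨f.natDegree, h1, ?_⟩, ?_⟩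
  · intro h4
    apply h3
    have h5 : f.coeff f.natDegree = 0 := ZeroMemClass.coe_eq_zero.1 h4
    exact Polynomial.leadingCoeff_eq_zero.1 h5
  · rw [Polynomial.aeval_eq_sum_range' (Nat.lt_succ_of_le h1)] at h2
    rw [← h2]
    refine Finset.sum_congr rfl fun i _ => ?_
    rw [IntermediateField.smul_def, smul_eq_mul]

/-- **Criterion.**  (1) The numbers in `Dependent α` form a set of multiples, and its complement in
the positive integers has linearly independent powers.  (2) For every `c`, some set of upper density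
at least `c` has linearly independent powers if and only if the integers divisible by no member of
`F` have density at least `c`, for every finite subset `F` of `Dependent α`.  (3) Hence the
conclusion of Q1 holds for `α` if and only if these densities are bounded below by a positive
number.  (4) The conclusion of Q1 depends on `α` modulo `1` only.  (5) The densities are at least
the product of the `1 - p ^ (- e)`, where `e` is the degree of `p ^ α` over the field generated by
the `q ^ α`, `q < p` prime (this is written with the finite subproducts, and upper bounds for the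
degrees).  (6), (7) The conclusion of Q1 holds if the sum of the reciprocals of the primes in
`FieldDependent α` converges, and it fails if the sum of the reciprocals of the primes in
`Dependent α` diverges. -/
theorem result (α : ℝ) :
    ((∀ n ∈ Dependent α, ∀ k : ℕ, 1 ≤ k → k * n ∈ Dependent α) ∧
      IndependentOn α {n | 1 ≤ n ∧ n ∉ Dependent α}) ∧
    (∀ c : ℝ, (∃ T : Set ℕ, UpperDensityGE T c ∧ IndependentOn α T) ↔ FreeGE α c) ∧
    (WeaklyIndependent α ↔ ∃ c : ℝ, 0 < c ∧ FreeGE α c) ∧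
    (∀ k : ℤ, WeaklyIndependent (α + k) ↔ WeaklyIndependent α) ∧
    (∀ c : ℝ, ProductGE α c → FreeGE α c) ∧
    (ConvergentSum (FieldDependent α) → WeaklyIndependent α) ∧
    (WeaklyIndependent α → ConvergentSum {p | p.Prime ∧ p ∈ Dependent α}) := by
  unfold IndependentOn FreeGE ConvergentSum
  rw [dependent_eq]
  refine ⟨⟨fun n hn k hk => Pool.Agent.helper60.PC.Dp_mul hn hk,
    Pool.Agent.helper60.PC.linearIndepOn_Sg α⟩,
    fun c => Pool.Agent.helper60.PC.sharp α c, Pool.Agent.helper60.PC.WI_iff α,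
    fun k => Pool.Agent.helper60.PC.WI_add_iff α k, fun c hc F hF => ?_,
    Pool.Agent.helper60.PC.WI_of_RF α, Pool.Agent.helper60.PC.summable_of_WI α⟩
  refine Pool.Agent.helper60.PC.le_dl_of_deg (fun P e h => hc P e fun p hp => ?_) hF
  exact ⟨(h p hp).1, degreeLE_of α p (e p) (h p hp).2⟩

end Pool.Agent.Results.MP_ff1ab7_nt.FreeDensity
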