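import Mathlib
import Pool.Agent.helper80.FF.Core
import Pool.Agent.helper82.PW.Example

/-!
# All powers `n ^ β` are linearly independent for explicit exponents `β`
-/

set_option autoImplicit false

namespace Pool.Agent.Results.MP_ff1ab7_nt.HyperLiouvilleExponents

/-- The rational point `p / q` is very close to `s`: no coordinate agrees with that of `s`, all
distances are less than `exp (- q ^ m)`, and each distance is at most the `m`-th power of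
the preceding ones. -/
def IsApp {r : ℕ} (s : Fin r → ℝ) (m q : ℕ) (p : Fin r → ℤ) : Prop :=
  (∀ i, s i ≠ (p i : ℝ) / (q : ℝ)) ∧
  (∀ i, |s i - (p i : ℝ) / (q : ℝ)| < Real.exp (-((q : ℝ) ^ m))) ∧
  ∀ i j, i < j → |s j - (p j : ℝ) / (q : ℝ)| ≤ |s i - (p i : ℝ) / (q : ℝ)| ^ m

/-- Such rational points exist for every `m`. -/
def Sep {r : ℕ} (s : Fin r → ℝ) : Prop :=
  ∀ m : ℕ, ∃ q : ℕ, 2 ≤ q ∧ ∃ p : Fin r → ℤ, IsApp s m q p

/-- Every finite subset of `S` is contained in the set of coordinates of a tuple of elements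
of `S` with the property `Sep`. -/
def Good (S : Set ℝ) : Prop :=
  ∀ T : Set ℝ, T.Finite → T ⊆ S → ∃ (r : ℕ) (s : Fin r → ℝ), Sep s ∧ T ⊆ Set.range s ∧
    Set.range s ⊆ S

/-- The field `ℚ(S)`. -/
noncomputable def K (S : Set ℝ) : IntermediateField ℚ ℂ :=
  IntermediateField.adjoin ℚ ((fun x : ℝ => (x : ℂ)) '' S)

/-- Hyper-Liouville numbers: approximable by fractions to within `exp (- q ^ m)` for all `m`. -/
def HyperLiouville (l : ℝ) : Prop :=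
  ∀ m : ℕ, ∃ (q : ℕ) (p : ℤ), 2 ≤ q ∧ l ≠ (p : ℝ) / (q : ℝ) ∧
    |l - (p : ℝ) / (q : ℝ)| < Real.exp (-((q : ℝ) ^ m))

/-- `a 0 = 2`, `a (k + 1) = 2 ^ (a k ^ 3)`. -/
def a : ℕ → ℕ
  | 0 => 2
  | k + 1 => 2 ^ a k ^ 3

/-- `∑ k, 2 ^ (- ⌊a k ^ x⌋)` -/
noncomputable def lam (x : ℝ) : ℝ := ∑' k : ℕ, ((2 : ℝ) ^ ⌊(a k : ℝ) ^ x⌋₊)⁻¹

/-- The conclusion of Q1 for the exponent `α` (copied from the frozen statement). -/
def WeaklyIndependent (α : ℝ) : Prop :=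
  ∃ S : Set ℕ,
    (∃ c : ℝ, 0 < c ∧ ∀ N : ℕ, ∃ M : ℕ, N ≤ M ∧
        c * (M : ℝ) ≤ ((S ∩ Set.Icc 1 M).ncard : ℝ)) ∧
    LinearIndependent ℚ (fun n : S => ((n : ℕ) : ℝ) ^ α)

theorem a_eq : a = Pool.Agent.helper82.PW.tower := by
  funext k
  induction k with
  | zero => rfl
  | succ k ih =>
    show 2 ^ a k ^ 3 = 2 ^ Pool.Agent.helper82.PW.tower k ^ 3
    rw [ih]

theorem lam_eq : lam = Pool.Agent.helper82.PW.lamb := by
  funext x
  unfold lam Pool.Agent.helper82.PW.lamb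
  rw [a_eq]

theorem irrational_of_hyperLiouville {l : ℝ} (hl : HyperLiouville l) : Irrational l := by
  rintro ⟨q, rfl⟩
  apply Pool.Agent.helper82.PW.hypL_tr hl
  have h : (((q : ℝ)) : ℂ) = algebraMap ℚ ℂ q := by simp
  rw [h]
  exact isAlgebraic_algebraMap q

theorem hyperLiouville_of_good {S : Set ℝ} (hS : Good S) {l : ℝ} (hl : l ∈ S) :
    HyperLiouville l := by
  obtain ⟨r, s, hs, hT, -⟩ := hS {l} (Set.finite_singleton l) (Set.singleton_subset_iff.2 hl)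
  obtain ⟨i, rfl⟩ := hT rfl
  intro m
  obtain ⟨q, hq, p, h1, h2, -⟩ := hs m
  exact ⟨q, p i, hq, h1 i, h2 i⟩

theorem result :
    (∀ S : Set ℝ, Good S → ∀ β : ℝ, Irrational β → (β : ℂ) ∈ K S →
      AlgebraicIndependent (K S) (fun p : Nat.Primes => ((p : ℕ) : ℂ) ^ (β : ℂ)) ∧
      LinearIndependent (K S) (fun n : ℕ+ => ((n : ℕ) : ℂ) ^ (β : ℂ)) ∧
      LinearIndependent ℚ (fun n : ℕ+ => ((n : ℕ) : ℝ) ^ β) ∧
      WeaklyIndependent β) ∧
    (∀ l : ℝ, HyperLiouville l → Irrational l ∧ Good {l} ∧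
      ∀ r t : ℚ, r ≠ 0 → HyperLiouville ((r : ℝ) * l + (t : ℝ))) ∧
    (∀ x ∈ Set.Ioo (1 : ℝ) 2, HyperLiouville (lam x)) ∧
    Good (lam '' Set.Ioo 1 2) ∧
    Cardinal.mk (lam '' Set.Ioo (1 : ℝ) 2) = Cardinal.continuum := by
  have hex : Good (lam '' Set.Ioo 1 2) ∧
      Cardinal.mk (lam '' Set.Ioo (1 : ℝ) 2) = Cardinal.continuum := by
    rw [lam_eq]
    exact Pool.Agent.helper82.PW.good_example
  refine ⟨fun S hS β hβ hβK => ⟨?_, ?_, ?_, ?_⟩, fun l hl => ⟨irrational_of_hyperLiouville hl,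
    Pool.Agent.helper82.PW.hypL_good hl, fun r t hr => ?_⟩, fun x hx => ?_, hex⟩
  · exact Pool.Agent.helper80.FF.primes_ai hS hβ hβK
  · exact Pool.Agent.helper80.FF.ints_li hS hβ hβK
  · exact Pool.Agent.helper80.FF.ints_liQ hS hβ hβK
  · obtain ⟨h1, h2⟩ := Pool.Agent.helper80.FF.weak hS hβ hβK
    exact ⟨{n : ℕ | 1 ≤ n}, ⟨1, one_pos, fun N => ⟨N, le_rfl, by rw [one_mul, h1]⟩⟩, h2⟩
  · exact Pool.Agent.helper80.FF.hypL_affine hl r t hr
  · exact hyperLiouville_of_good hex.1 ⟨x, hx, rfl⟩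

end Pool.Agent.Results.MP_ff1ab7_nt.HyperLiouvilleExponents
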