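import Mathlib
import Pool.Agent.helper5.WI.Lin
import Pool.Agent.helper5.WI.Hered

/-!
# Weak linear independence of the powers `n ^ α` improves itself: a zero-one law
-/

set_option autoImplicit false

namespace Pool.Agent.Results.MP_ff1ab7_nt.ZeroOneLaw

open Filter Topology

/-- The conclusion of Q1 for the exponent `α` (copied from the frozen statement). -/
def WeaklyIndependent (α : ℝ) : Prop :=
  ∃ S : Set ℕ,
    (∃ c : ℝ, 0 < c ∧ ∀ N : ℕ, ∃ M : ℕ, N ≤ M ∧
        c * (M : ℝ) ≤ ((S ∩ Set.Icc 1 M).ncard : ℝ)) ∧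
    LinearIndependent ℚ (fun n : S => ((n : ℕ) : ℝ) ^ α)

/-- The positive integers `n` such that `n ^ α` is not a linear combination with coefficients
in `K` of the numbers `m ^ α`, `1 ≤ m < n`. -/
def B (K : IntermediateField ℚ ℝ) (α : ℝ) : Set ℕ :=
  {n | 0 < n ∧ (n : ℝ) ^ α ∉ Submodule.span K ((fun m : ℕ => (m : ℝ) ^ α) '' Set.Ico 1 n)}

/-- The upper density of a set of positive integers. -/
noncomputable def upperDensity (S : Set ℕ) : ℝ :=
  limsup (fun N : ℕ => ((S ∩ Set.Icc 1 N).ncard : ℝ) / N) atTop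

/-- The sum of `1 / n` over the elements `n` of `S` with `1 ≤ n ≤ x`. -/
noncomputable def recSum (S : Set ℕ) (x : ℕ) : ℝ :=
  ∑ n ∈ Finset.Icc 1 x, S.indicator (fun n : ℕ => 1 / (n : ℝ)) n

/-- Positive upper logarithmic density. -/
def PosUpperLogDensity (S : Set ℕ) : Prop :=
  ∃ c : ℝ, 0 < c ∧ ∀ N : ℕ, ∃ x : ℕ, N ≤ x ∧ c * Real.log x ≤ recSum S x

/-- The positive integers all of whose prime divisors exceed `y`. -/
def rough (y : ℕ) : Set ℕ := {n | 0 < n ∧ ∀ p : ℕ, p.Prime → p ∣ n → y < p}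

/-- The density of the set `rough y`: the product of `1 - 1 / p` over the primes `p ≤ y`. -/
noncomputable def roughDensity (y : ℕ) : ℝ :=
  ∏ p ∈ (Finset.range (y + 1)).filter Nat.Prime, (1 - 1 / (p : ℝ))

open Pool.Agent.helper5.WI

open scoped Classical in
theorem ncard_eq (S : Set ℕ) (N : ℕ) : ((S ∩ Set.Icc 1 N).ncard : ℝ) = cN S N := by
  unfold cN
  have : S ∩ Set.Icc 1 N = (((Finset.Icc 1 N).filter (· ∈ S) : Finset ℕ) : Set ℕ) := by
    ext n
    rw [Finset.mem_coe, Finset.mem_filter, Finset.mem_Icc, Set.mem_inter_iff, Set.mem_Icc]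
    exact and_comm
  rw [this, Set.ncard_coe_finset]

theorem ud_eq (S : Set ℕ) : upperDensity S = UD S := by
  unfold upperDensity UD
  simp only [ncard_eq]

open scoped Classical in
theorem recSum_eq (S : Set ℕ) (x : ℕ) : recSum S x = Ls S x := by
  unfold recSum Ls
  rw [Finset.sum_filter]
  refine Finset.sum_congr rfl fun n _ => ?_
  rw [Set.indicator_apply, one_div]

theorem recSum_univ (x : ℕ) : recSum Set.univ x = Hs x := by
  unfold recSum Hs
  simp

theorem rd_eq (y : ℕ) : roughDensity y = Pi y := by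
  unfold roughDensity Pi
  simp only [one_div]

theorem B_eq (K : IntermediateField ℚ ℝ) (α : ℝ) :
    B K α = Bas K (fun n : ℕ => (n : ℝ) ^ α) := rfl

theorem mul_pow' (α : ℝ) (m n : ℕ) (_ : 0 < m) (_ : 0 < n) :
    (fun n : ℕ => (n : ℝ) ^ α) (m * n) =
      (fun n : ℕ => (n : ℝ) ^ α) m * (fun n : ℕ => (n : ℝ) ^ α) n := by
  show ((m * n : ℕ) : ℝ) ^ α = (m : ℝ) ^ α * (n : ℝ) ^ α
  rw [Nat.cast_mul, Real.mul_rpow (Nat.cast_nonneg m) (Nat.cast_nonneg n)]

theorem B_dc (K : IntermediateField ℚ ℝ) (α : ℝ) : ∀ n ∈ B K α, ∀ d, d ∣ n → d ∈ B K α := by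
  rw [B_eq]
  exact Bas_dc K _ (mul_pow' α)

theorem Hs_div_log : Tendsto (fun x : ℕ => Hs x / Real.log x) atTop (𝓝 1) := by
  have h1 : Tendsto (fun x : ℕ => Real.log x) atTop atTop :=
    Real.tendsto_log_atTop.comp tendsto_natCast_atTop_atTop
  have h2 : Tendsto (fun x : ℕ => ((harmonic x : ℝ) - Real.log x) / Real.log x) atTop (𝓝 0) :=
    Real.tendsto_harmonic_sub_log.div_atTop h1
  have h3 : Tendsto (fun x : ℕ => 1 + ((harmonic x : ℝ) - Real.log x) / Real.log x) atTop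
      (𝓝 (1 + 0)) := tendsto_const_nhds.add h2
  rw [add_zero] at h3
  refine h3.congr' ?_
  filter_upwards [h1.eventually_gt_atTop 0] with x hx
  rw [Hs_harm]
  field_simp
  ring

theorem Hs_le_two_log : ∀ᶠ x : ℕ in atTop, Hs x ≤ 2 * Real.log x := by
  have h1 : Tendsto (fun x : ℕ => Real.log x) atTop atTop :=
    Real.tendsto_log_atTop.comp tendsto_natCast_atTop_atTop
  filter_upwards [Hs_div_log.eventually_lt_const (by norm_num : (1 : ℝ) < 2),
    h1.eventually_gt_atTop 0] with x hx hx2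
  rw [div_lt_iff₀ hx2] at hx
  exact hx.le

theorem freq_of_pos {T : Set ℕ} (h : PosUpperLogDensity T) :
    ∃ τ : ℝ, 0 < τ ∧ ∃ᶠ x in atTop, τ * Hs x ≤ Ls T x := by
  obtain ⟨c, hc, h⟩ := h
  refine ⟨c / 2, by linarith, ?_⟩
  have h1 : ∃ᶠ x : ℕ in atTop, c * Real.log x ≤ Ls T x := by
    rw [frequently_atTop]
    intro N
    obtain ⟨x, hx1, hx2⟩ := h N
    exact ⟨x, hx1, by rw [← recSum_eq]; exact hx2⟩
  refine (h1.and_eventually Hs_le_two_log).mono ?_
  rintro x ⟨h2, h3⟩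
  nlinarith

theorem wi_iff (K : IntermediateField ℚ ℝ) [FiniteDimensional ℚ K] (α : ℝ) :
    WeaklyIndependent α ↔ 0 < UD (B K α) := by
  constructor
  · rintro ⟨S, ⟨c, hc, hS⟩, hind⟩
    have h1 : c ≤ UD S := by
      refine le_limsup_of_frequently_le ?_ (bdd S)
      rw [frequently_atTop]
      intro N
      obtain ⟨M, hM1, hM2⟩ := hS (N + 1)
      refine ⟨M, by omega, ?_⟩
      have hM : (0 : ℝ) < M := by exact_mod_cast (by omega : 0 < M)
      rw [le_div_iff₀ hM, ← ncard_eq]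
      exact hM2
    by_contra hneg
    have h0 : UD (B K α) = 0 := le_antisymm (not_lt.1 hneg) (UD_nonneg _)
    set k : ℝ := (Module.finrank ℚ K : ℝ) with hk
    have hk0 : 0 < k := by
      rw [hk]; exact_mod_cast Module.finrank_pos
    obtain ⟨C, hC⟩ := ev_bound (S := B K α) (c := c / (2 * k)) (by rw [h0]; positivity)
    have h2 : UD S ≤ c / 2 := by
      refine UD_le (C := k * C) fun N => ?_
      have h3 : cN S N ≤ k * cN (B K α) N := by
        unfold cN
        rw [hk]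
        exact_mod_cast Bas_ext (fun n : ℕ => (n : ℝ) ^ α) K hind N
      calc cN S N ≤ k * cN (B K α) N := h3
        _ ≤ k * (c / (2 * k) * N + C) := mul_le_mul_of_nonneg_left (hC N) hk0.le
        _ = c / 2 * N + k * C := by field_simp
    linarith
  · intro hpos
    refine ⟨B K α, ⟨UD (B K α) / 2, by linarith, fun N => ?_⟩,
      LinearIndependent.restrict_scalars (R := ℚ) (K := K) ?_ (Bas_indep K _)⟩
    · have h1 : ∃ᶠ M : ℕ in atTop, UD (B K α) / 2 < cN (B K α) M / M :=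
        frequently_lt_of_lt_limsup (cobdd (B K α)) (by
          show UD (B K α) / 2 < UD (B K α)
          linarith)
      obtain ⟨M, hM1, hM2⟩ := frequently_atTop.1 h1 (N + 1)
      refine ⟨M, by omega, ?_⟩
      have hM : (0 : ℝ) < M := by exact_mod_cast (by omega : 0 < M)
      rw [lt_div_iff₀ hM] at hM2
      rw [ncard_eq]
      exact hM2.le
    · intro a b hab
      simpa [Algebra.smul_def] using hab

theorem rough_eq (K : IntermediateField ℚ ℝ) (α : ℝ) (y : ℕ) :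
    B K α ∩ rough y = RoughIn (B K α) y := by
  ext n
  constructor
  · rintro ⟨h1, _, h2⟩; exact ⟨h1, h2⟩
  · rintro ⟨h1, h2⟩; exact ⟨h1, h1.1, h2⟩

open scoped Classical in
theorem Ls_image {S : Set ℕ} {u : ℕ} (hu : 0 < u) (x : ℕ) :
    (u : ℝ)⁻¹ * Ls S x ≤ Ls ((fun v => u * v) '' S) (u * x) := by
  unfold Ls
  rw [Finset.mul_sum]
  have h1 : ∑ n ∈ (Finset.Icc 1 x).filter (· ∈ S), (u : ℝ)⁻¹ * (n : ℝ)⁻¹ =
      ∑ n ∈ ((Finset.Icc 1 x).filter (· ∈ S)).image (fun v => u * v), (n : ℝ)⁻¹ := by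
    rw [Finset.sum_image (fun a _ b _ hab => Nat.eq_of_mul_eq_mul_left hu hab)]
    refine Finset.sum_congr rfl fun n _ => ?_
    rw [Nat.cast_mul, mul_inv]
  rw [h1]
  refine Finset.sum_le_sum_of_subset_of_nonneg ?_ (fun n _ _ => by positivity)
  intro n hn
  obtain ⟨v, hv, rfl⟩ := Finset.mem_image.1 hn
  have hv1 := Finset.mem_filter.1 hv
  have hv2 := Finset.mem_Icc.1 hv1.1
  exact Finset.mem_filter.2 ⟨Finset.mem_Icc.2 ⟨Nat.mul_pos hu (by omega),
    Nat.mul_le_mul_left u hv2.2⟩, ⟨v, hv1.2, rfl⟩⟩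

theorem dilate_indep (K : IntermediateField ℚ ℝ) (α : ℝ) {u : ℕ} (hu : 0 < u) {S : Set ℕ}
    (hS : S ⊆ B K α) :
    LinearIndependent K (fun n : ((fun v => u * v) '' S : Set ℕ) => ((n : ℕ) : ℝ) ^ α) := by
  have hur : (0 : ℝ) < u := by exact_mod_cast hu
  have hc0 : (u : ℝ) ^ α ≠ 0 := (Real.rpow_pos_of_pos hur α).ne'
  have hdiv : ∀ n : ((fun v => u * v) '' S : Set ℕ), (n : ℕ) / u ∈ B K α ∧
      u * ((n : ℕ) / u) = (n : ℕ) := by
    rintro ⟨_, v, hv, rfl⟩
    have : u * v / u = v := Nat.mul_div_cancel_left v hu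
    refine ⟨?_, ?_⟩
    · show u * v / u ∈ B K α
      rw [this]; exact hS hv
    · show u * (u * v / u) = u * v
      rw [this]
  have h1 := (Bas_indep K (fun n : ℕ => (n : ℝ) ^ α)).comp
    (fun n : ((fun v => u * v) '' S : Set ℕ) => (⟨(n : ℕ) / u, (hdiv n).1⟩ : B K α)) (by
      intro a b hab
      have h2 : (a : ℕ) / u = (b : ℕ) / u := congrArg (fun z : B K α => (z : ℕ)) hab
      apply Subtype.ext
      rw [← (hdiv a).2, ← (hdiv b).2, h2])
  have h2 := h1.map' (LinearMap.mulLeft K ((u : ℝ) ^ α))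
    (LinearMap.ker_eq_bot.2 (mul_right_injective₀ hc0))
  have h3 : LinearIndependent K (fun n : ((fun v => u * v) '' S : Set ℕ) =>
      (u : ℝ) ^ α * (((n : ℕ) / u : ℕ) : ℝ) ^ α) := h2
  have h4 : (fun n : ((fun v => u * v) '' S : Set ℕ) => ((n : ℕ) : ℝ) ^ α) =
      fun n : ((fun v => u * v) '' S : Set ℕ) =>
        (u : ℝ) ^ α * (((n : ℕ) / u : ℕ) : ℝ) ^ α := by
    funext n
    rw [← Real.mul_rpow hur.le (Nat.cast_nonneg _), ← Nat.cast_mul, (hdiv n).2]
  rw [h4]
  exact h3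

theorem heredity (K : IntermediateField ℚ ℝ) [FiniteDimensional ℚ K] (α : ℝ)
    (hpos : 0 < UD (B K α)) (T : Set ℕ) (hT : PosUpperLogDensity T) :
    ∃ S : Set ℕ, S ⊆ T ∧ PosUpperLogDensity S ∧
      LinearIndependent K (fun n : S => ((n : ℕ) : ℝ) ^ α) := by
  obtain ⟨τ, hτ, hT'⟩ := freq_of_pos hT
  obtain ⟨u, hu, c, hc, hf⟩ := hered (B_dc K α) hpos T hτ hT'
  set S' := B K α ∩ Quo T u with hS'
  have hur : (0 : ℝ) < u := by exact_mod_cast hu
  refine ⟨(fun v => u * v) '' S', ?_, ⟨c / (2 * u), by positivity, fun N => ?_⟩, ?_⟩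
  · rintro _ ⟨v, hv, rfl⟩
    exact hv.2
  · obtain ⟨x, ⟨hx1, hx2⟩⟩ := (hf.and_eventually (eventually_ge_atTop (N + u + 1))).exists
    refine ⟨u * x, ?_, ?_⟩
    · have : x ≤ u * x := Nat.le_mul_of_pos_left x hu
      omega
    · rw [recSum_eq]
      refine le_trans ?_ (Ls_image hu x)
      have hx0 : (0 : ℝ) < x := by exact_mod_cast (by omega : 0 < x)
      have h1 : Real.log ((u * x : ℕ) : ℝ) ≤ 2 * Hs x := by
        rw [Nat.cast_mul, Real.log_mul hur.ne' hx0.ne']
        have h2 : Real.log u ≤ Real.log ((x : ℝ) + 1) :=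
          Real.log_le_log hur (by
            have : (u : ℝ) ≤ x := by exact_mod_cast (by omega : u ≤ x)
            linarith)
        have h3 : Real.log x ≤ Real.log ((x : ℝ) + 1) := Real.log_le_log hx0 (by linarith)
        have h4 := Hs_log x
        linarith
      calc c / (2 * u) * Real.log ((u * x : ℕ) : ℝ) ≤ c / (2 * u) * (2 * Hs x) :=
            mul_le_mul_of_nonneg_left h1 (by positivity)
        _ = (u : ℝ)⁻¹ * (c * Hs x) := by field_simp
        _ ≤ (u : ℝ)⁻¹ * Ls S' x := mul_le_mul_of_nonneg_left hx1 (by positivity)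
  · exact dilate_indep K α hu Set.inter_subset_left

theorem cover_log (K : IntermediateField ℚ ℝ) [FiniteDimensional ℚ K] (α : ℝ)
    (hpos : 0 < UD (B K α)) {ε : ℝ} (hε : 0 < ε) :
    ∃ (M : ℕ) (C : ℝ), ∀ x : ℕ,
      recSum {n | ∀ u ∈ Set.Icc 1 M, n ∉ (fun v => u * v) '' B K α} x ≤ ε * Real.log x + C := by
  obtain ⟨M, C, h⟩ := cover (B_dc K α) hpos hε
  refine ⟨M, ε + C, fun x => ?_⟩
  have h1 : {n | ∀ u ∈ Set.Icc 1 M, n ∉ (fun v => u * v) '' B K α} = Missed (B K α) M := by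
    ext n
    constructor
    · intro hn u v hu hM hv hnuv
      exact hn u ⟨hu, hM⟩ ⟨v, hv, hnuv.symm⟩
    · rintro hn u ⟨hu, hM⟩ ⟨v, hv, hnuv⟩
      exact hn u v hu hM hv hnuv.symm
  rw [h1, recSum_eq]
  have h2 := h x
  have h3 : Hs x ≤ 1 + Real.log x := by
    rw [Hs_harm]; exact_mod_cast harmonic_le_one_add_log x
  nlinarith

/-- Weak independence improves itself: number fields, subsets, covers, rough integers. -/
theorem result (K : IntermediateField ℚ ℝ) [FiniteDimensional ℚ K] (α : ℝ) :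
    -- the greedy set over `K` is closed under divisors and its dilates are independent over `K`
    ((∀ n ∈ B K α, ∀ d, d ∣ n → d ∈ B K α) ∧
      (∀ u : ℕ, 0 < u → LinearIndependent K
        (fun n : ((fun v => u * v) '' B K α : Set ℕ) => ((n : ℕ) : ℝ) ^ α))) ∧
    -- the conclusion of Q1 is equivalent to the hereditary property over `K`
    (WeaklyIndependent α ↔ ∀ T : Set ℕ, PosUpperLogDensity T →
      ∃ S : Set ℕ, S ⊆ T ∧ PosUpperLogDensity S ∧
        LinearIndependent K (fun n : S => ((n : ℕ) : ℝ) ^ α)) ∧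
    -- if it holds, finitely many dilates of the greedy set cover almost all integers, and the
    -- greedy set contains almost all integers without small prime divisors
    (WeaklyIndependent α → ∀ ε : ℝ, 0 < ε →
      (∃ (M : ℕ) (C : ℝ), ∀ x : ℕ,
        recSum {n | ∀ u ∈ Set.Icc 1 M, n ∉ (fun v => u * v) '' B K α} x ≤ ε * Real.log x + C) ∧
      (∃ y₀ : ℕ, ∀ y : ℕ, y₀ ≤ y →
        (∀ x : ℕ, (1 - ε) * roughDensity y * recSum Set.univ x ≤ recSum (B K α ∩ rough y) x) ∧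
        (1 - ε) * roughDensity y ≤ upperDensity (B K α ∩ rough y))) := by
  have hB := B_dc K α
  have hmax : ∀ S : Set ℕ, LinearIndependent K (fun n : S => ((n : ℕ) : ℝ) ^ α) →
      ∀ N : ℕ, cN S N ≤ cN (B K α) N := by
    intro S hS N
    unfold cN
    exact_mod_cast Bas_max K (fun n : ℕ => (n : ℝ) ^ α) hS N
  refine ⟨⟨hB, fun u hu => dilate_indep K α hu subset_rfl⟩, ⟨fun hW T hT => ?_, fun h => ?_⟩,
    fun hW ε hε => ⟨cover_log K α ((wi_iff K α).1 hW) hε, ?_⟩⟩
  · exact heredity K α ((wi_iff K α).1 hW) T hT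
  · rw [wi_iff K α]
    obtain ⟨S, _, hS, hind⟩ := h Set.univ ⟨1, one_pos, fun N => ⟨N + 1, by omega, by
      rw [recSum_univ, one_mul]
      refine le_trans ?_ (Hs_log (N + 1))
      refine Real.log_le_log (by positivity) (by push_cast; linarith)⟩⟩
    obtain ⟨τ, hτ, hf⟩ := freq_of_pos hS
    have h1 := le_UD_freq hf
    have h2 := UD_mono (hmax S hind)
    linarith
  · obtain ⟨y0, hy0⟩ := zero_one hB ((wi_iff K α).1 hW) hε
    refine ⟨y0, fun y hy => ?_⟩
    rw [rough_eq, ud_eq, rd_eq]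
    refine ⟨fun x => ?_, le_UD (hy0 y hy)⟩
    rw [recSum_univ, recSum_eq]
    exact hy0 y hy x

end Pool.Agent.Results.MP_ff1ab7_nt.ZeroOneLaw
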